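import Pool.Agent.H11.PartMat

open Matrix H11.PM

namespace H11.PM2

def A₀ : Matrix (Fin 7) (Fin 7) (Option ℤ) :=
  !![some 1, some 0, some 0, some 0, none, some 1, some 0;
     some 0, some 1, some 0, some 0, none, some 0, some 1;
     some 0, some 0, some 1, some 0, some 1, some 1, some (-1);
     some 0, some 0, some 0, some 1, some 0, none, none;
     none, none, some 0, some 1, some 1, some 0, some 0;
     some 0, some 1, none, some 1, some 0, some 0, none;
     some 1, some 0, none, some 1, some 0, none, some 0]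

def A (F : Type*) [Field F] : Matrix (Fin 7) (Fin 7) (Option F) := A₀.map (Option.map Int.cast)

variable (F : Type*) [Field F]

theorem lower [CharZero F] (b : ℕ) (hb : 0 < b) : 4 * b < mr (tens (A F) b) := by
  obtain ⟨N, hN, h⟩ := exists_mr (tens (A F) b)
  by_contra! hr
  let n : Fin 7 → Fin 7 → Matrix (Fin b) (Fin b) F := fun i j => .of fun s t => N (i, s) (j, t)
  have hn : ∀ i j a, A₀ i j = some a → n i j = a := fun i j a ha => by
    ext s t
    refine (hN (i, s) (j, t) (if s = t then a else 0) (by simp [tens, A, ha])).trans ?_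
    simp [Matrix.intCast_apply]
  let e : Fin 4 × Fin b → Fin 7 × Fin b := fun p => (p.1.castAdd 3, p.2)
  have hs := schur N e e (by
    ext ⟨i, s⟩ ⟨j, t⟩
    have := congrFun₂ (hn (i.castAdd 3) (j.castAdd 3) (if i = j then 1 else 0)
      (by revert i j; decide)) s t
    refine this.trans ?_
    by_cases i = j <;> by_cases s = t <;> simp [*, one_apply]) (by simpa [h] using hr)
  have hm : ∀ i j, n i j = n i 0 * n 0 j + n i 1 * n 1 j + n i 2 * n 2 j + n i 3 * n 3 j := by
    intro i j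
    ext s t
    have := congrFun₂ hs (i, s) (j, t)
    rw [mul_apply, Fintype.sum_prod_type, Fin.sum_univ_four] at this
    exact this
  have e1 := hm 4 4
  have e2 := hm 4 5
  have e3 := hm 4 6
  have e4 := hm 5 4
  have e5 := hm 5 5
  have e6 := hm 6 4
  have e7 := hm 6 6
  simp only [hn 0 5 _ rfl, hn 0 6 _ rfl, hn 1 5 _ rfl, hn 1 6 _ rfl, hn 2 4 _ rfl, hn 2 5 _ rfl,
    hn 2 6 _ rfl, hn 3 4 _ rfl, hn 4 2 _ rfl, hn 4 3 _ rfl, hn 4 4 _ rfl, hn 4 5 _ rfl,
    hn 4 6 _ rfl, hn 5 0 _ rfl, hn 5 1 _ rfl, hn 5 3 _ rfl, hn 5 4 _ rfl, hn 5 5 _ rfl,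
    hn 6 0 _ rfl, hn 6 1 _ rfl, hn 6 3 _ rfl, hn 6 4 _ rfl, hn 6 6 _ rfl, Int.cast_zero,
    Int.cast_one, Int.cast_neg, mul_one, one_mul, mul_zero, zero_mul, add_zero, zero_add,
    mul_neg] at e1 e2 e3 e4 e5 e6 e7
  have hx : n 1 4 = - n 4 0 := by
    rw [← add_eq_zero_iff_eq_neg]; linear_combination (norm := abel1) e5 - e2 - e4
  have hy : n 0 4 = n 4 1 := by
    linear_combination (norm := abel1) e3 - e6 - e7
  have := congrArg trace e1
  rw [hx, hy, trace_add, mul_neg, trace_neg, trace_mul_comm] at this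
  simp [hb.ne'] at this

theorem comm (b : ℕ) : ∃ X Y : Matrix (Fin (b + 1)) (Fin (b + 1)) F,
    X * Y - Y * X + vecMulVec (Pi.single (Fin.last b) (b + 1 : F)) (Pi.single (Fin.last b) 1)
      = 1 := by
  refine ⟨.of fun i k => if k.1 = i + 1 then k else 0, .of fun k j => if k.1 = j + 1 then 1 else 0,
    ?_⟩
  ext i j
  have h1 : ∑ k : Fin (b + 1), (if k.1 = i + 1 then (k : F) else 0) *
      (if k.1 = j + 1 then 1 else 0) = if i = j ∧ i ≠ Fin.last b then (i : F) + 1 else 0 := by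
    split_ifs with h
    · rw [Finset.sum_eq_single ⟨i + 1, by have := Fin.val_lt_last h.2; omega⟩] <;>
        simp +contextual [h.1, Fin.ext_iff]
    · refine Finset.sum_eq_zero fun k _ => ?_
      have := k.2
      simp only [Fin.ext_iff, ne_eq, Fin.val_last] at h
      split_ifs <;> first | omega | simp
  have h2 : ∑ k : Fin (b + 1), (if i.1 = k + 1 then (1 : F) else 0) *
      (if j.1 = k + 1 then (j : F) else 0) = if i = j then (i : F) else 0 := by
    by_cases h : i = j ∧ i.1 ≠ 0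
    · rw [Finset.sum_eq_single ⟨i - 1, by omega⟩, if_pos h.1, if_pos (by simp; omega),
        if_pos (by simp; omega), h.1, one_mul]
      · intro k _ hk
        rw [if_neg (fun c => hk (Fin.ext (by simp; omega))), zero_mul]
      · simp
    · rw [Finset.sum_eq_zero fun k _ => by
        simp only [Fin.ext_iff] at h
        split_ifs <;> first | omega | simp]
      split_ifs with c
      · simp [show i.1 = 0 by tauto]
      · rfl
  simp only [Matrix.add_apply, Matrix.sub_apply, Matrix.mul_apply, of_apply, h1, h2,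
    vecMulVec_apply, Matrix.one_apply]
  clear h1 h2
  by_cases c : i = j
  · subst c
    by_cases d : i = Fin.last b
    · subst d; simp
    · simp [d]
  · by_cases i = Fin.last b <;> simp_all [Pi.single_apply]

theorem upper (b : ℕ) : mr (tens (A F) (b + 1)) ≤ 4 * (b + 1) + 1 := by
  obtain ⟨X, Y, h⟩ := comm F b
  let P : Fin 7 → Fin 4 → Matrix (Fin (b + 1)) (Fin (b + 1)) F :=
    !![1, 0, 0, 0; 0, 1, 0, 0; 0, 0, 1, 0; 0, 0, 0, 1; X, Y, 0, 1; 0, 1, X, 1; 1, 0, -Y, 1]
  let Q : Fin 4 → Fin 7 → Matrix (Fin (b + 1)) (Fin (b + 1)) F :=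
    !![1, 0, 0, 0, Y, 1, 0; 0, 1, 0, 0, -X, 0, 1; 0, 0, 1, 0, 1, 1, -1; 0, 0, 0, 1, 0, -X, -Y]
  let u : Fin 7 → Fin (b + 1) → F := Pi.single 4 (Pi.single (Fin.last b) (b + 1 : F))
  let v : Fin 7 → Fin (b + 1) → F := Pi.single 4 (Pi.single (Fin.last b) 1)
  have key : ∀ i j a, A₀ i j = some a → ∑ k, P i k * Q k j + vecMulVec (u i) (v j) = a := by
    intro i j a
    fin_cases i <;> fin_cases j <;>
      simp +contextual [A₀, P, Q, u, v, Fin.sum_univ_four, ← sub_eq_add_neg, h, eq_comm (b := a)]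
  have := mr_le (A := tens (A F) (b + 1)) (k := (Fin 4 × Fin (b + 1)) ⊕ Unit)
    (.of fun p => Sum.elim (fun q => P p.1 q.1 p.2 q.2) fun _ => u p.1 p.2)
    (.of (Sum.elim (fun q p => Q q.1 p.1 q.2 p.2) fun _ p => v p.1 p.2)) (by
      rintro ⟨i, s⟩ ⟨j, t⟩ a ha
      obtain ⟨c, hc, rfl⟩ := Option.map_eq_some_iff.1 ha
      obtain ⟨d, hd, rfl⟩ := Option.map_eq_some_iff.1 hc
      have := congrFun₂ (key i j d hd) s t
      simpa [mul_apply, Fintype.sum_prod_type, Matrix.sum_apply, vecMulVec_apply,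
        Matrix.intCast_apply] using this)
  simpa using this

end H11.PM2

open H11.PM2

theorem Pool.Agent.Results.MP_3569d7_al.Counter.result (F : Type*) [Field F] [CharZero F] :
    ∃ A : Matrix (Fin 7) (Fin 7) (Option F),
      ∀ b : ℕ, 1 ≤ b → fmr A < (mr (tens A b) : ℝ) / b := by
  refine ⟨A F, fun b hb => ?_⟩
  have h : fmr (A F) ≤ 4 := le_of_forall_pos_le_add fun ε hε => by
    obtain ⟨c, hc⟩ := exists_nat_one_div_lt hε
    refine (fmr_le _ c.succPNat).trans ?_
    have : (mr (tens (A F) (c + 1)) : ℝ) ≤ 4 * (c + 1) + 1 := by exact_mod_cast upper F c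
    rw [div_lt_iff₀ (by positivity)] at hc
    change (mr (tens (A F) (c + 1)) : ℝ) / (c + 1 : ℕ) ≤ _
    rw [div_le_iff₀ (by positivity)]
    push_cast
    linarith
  refine h.trans_lt ?_
  rw [lt_div_iff₀ (by exact_mod_cast hb)]
  exact_mod_cast lower F b hb
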